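import Pool.Agent.J4H63.IS.Stm
import Pool.Agent.J4H95.SP.T4

set_option autoImplicit false

namespace Pool.Agent.J4H63.IS

open Finset Pool.Agent.J4H64.SS Pool.Agent.J4H95.SP

theorem card_Pr_le (n : ℕ) : Fintype.card (Pr n) ≤ n ^ 2 := by
  refine (Fintype.card_subtype_le _).trans ?_
  simp [sq]

theorem n_le_card_Cl (n : ℕ) : n ≤ Fintype.card (Cl n) := by
  have h : Function.Injective (fun v : Fin n => (⟨{(v, true)}, by simp⟩ : Cl n)) := by
    intro v w h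
    have := congrArg Subtype.val h
    simpa using this
  simpa using Fintype.card_le_of_injective _ h

theorem card_Vt (n k : ℕ) : Fintype.card (Vt n k) = n * (18 * k) := by
  simp only [Fintype.card_sum, Fintype.card_prod, Fintype.card_fin, Fintype.card_bool]
  ring

/-- the numbering of the vertices -/
noncomputable def eV (n k : ℕ) : Vt n k ≃ Fin (n * (18 * k)) :=
  Fintype.equivFinOfCardEq (card_Vt n k)

theorem R_symm {n k : ℕ} (hk : 1 ≤ k) (x : Cl n → Bool) (u v : Vt n k) (h : R k hk x u v) :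
    R k hk x v u := by
  rcases u with ⟨v1, i, b⟩ | ⟨l, s, p⟩ <;> rcases v with ⟨v2, i', b'⟩ | ⟨l', s', p'⟩
  · obtain ⟨rfl, h⟩ := h
    refine ⟨rfl, ?_⟩
    rcases h with ⟨h1, h2, h3⟩ | ⟨h1, h2⟩
    · exact Or.inl ⟨h1, h2.symm, h3.symm⟩
    · refine Or.inr ⟨h1, ?_⟩
      rcases h2 with ⟨h2, h3⟩ | h2 | h2
      · exact Or.inl ⟨h2.symm, h3.symm⟩
      · exact Or.inr (Or.inr h2)
      · exact Or.inr (Or.inl h2)
  · exact h
  · exact h
  · obtain ⟨h1, h2, h3⟩ := h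
    exact ⟨h1.symm, h2.symm, h3.symm⟩

theorem R_irrefl {n k : ℕ} (hk : 1 ≤ k) (x : Cl n → Bool) (u : Vt n k) : ¬ R k hk x u u := by
  rcases u with ⟨v1, i, b⟩ | ⟨l, s, p⟩
  · rintro ⟨-, h⟩
    rcases h with ⟨_, _, h⟩ | ⟨_, h⟩
    · exact h rfl
    · rcases h with ⟨_, h⟩ | ⟨h1, h2, _⟩ | ⟨h1, h2, _⟩
      · exact h rfl
      · rw [h1] at h2; exact absurd h2 (by decide)
      · rw [h1] at h2; exact absurd h2 (by decide)
  · rintro ⟨_, _, h⟩
    exact h rfl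

open Classical in
/-- the adjacency bits of the gadget graph -/
noncomputable def gr {n : ℕ} (k : ℕ) (hk : 1 ≤ k) (x : Cl n → Bool) : Pr (n * (18 * k)) → Bool :=
  fun p => decide (R k hk x ((eV n k).symm p.1.1) ((eV n k).symm p.1.2))

theorem adj_gr {n k : ℕ} (hk : 1 ≤ k) (x : Cl n → Bool) (u v : Fin (n * (18 * k))) :
    Adj (gr k hk x) u v ↔ R k hk x ((eV n k).symm u) ((eV n k).symm v) := by
  constructor
  · rintro (⟨h, h1⟩ | ⟨h, h1⟩)
    · simpa [gr] using h1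
    · exact R_symm hk x _ _ (by simpa [gr] using h1)
  · intro h
    rcases lt_trichotomy u v with h1 | h1 | h1
    · exact Or.inl ⟨h1, by simpa [gr] using h⟩
    · subst h1
      exact absurd h (R_irrefl hk x _)
    · exact Or.inr ⟨h1, by simpa [gr] using R_symm hk x _ _ h⟩

theorem hasInd_gr {n k : ℕ} (hk : 1 ≤ k) (x : Cl n → Bool) (κ : ℕ) :
    HasInd κ (gr k hk x) ↔ ∃ S : Finset (Vt n k), κ ≤ S.card ∧
      ∀ u ∈ S, ∀ v ∈ S, ¬ R k hk x u v := by
  constructor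
  · rintro ⟨S, h1, h2⟩
    refine ⟨S.map (eV n k).symm.toEmbedding, by simpa using h1, ?_⟩
    intro u hu v hv
    simp only [mem_map_equiv, Equiv.symm_symm] at hu hv
    have := h2 _ hu _ hv
    rw [adj_gr] at this
    simpa using this
  · rintro ⟨S, h1, h2⟩
    refine ⟨S.map (eV n k).toEmbedding, by simpa using h1, ?_⟩
    intro u hu v hv
    simp only [mem_map_equiv] at hu hv
    rw [adj_gr]
    exact h2 _ hu _ hv

theorem deg3_gr (hDG : S_DG) {n k : ℕ} (hk : 1 ≤ k) (x : Cl n → Bool) (hx : Sparse k x) :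
    Deg3 (gr k hk x) := by
  intro u S hS
  have h := hDG n k hk x hx ((eV n k).symm u) (S.map (eV n k).symm.toEmbedding) ?_
  · simpa using h
  · intro v hv
    simp only [mem_map_equiv, Equiv.symm_symm] at hv
    have := hS _ hv
    rw [adj_gr] at this
    simpa using this

theorem t_A5 : S_A5 := by
  classical
  intro hDG hEQ1 hEQ2 hAG
  rintro ⟨δ, hδ, k₀, hk₀⟩
  obtain ⟨k, hk, hS⟩ : ∃ k : ℕ, 1 ≤ k ∧ SparseHyp δ k :=
    ⟨k₀ + 1, by omega, SparseHyp_mono (by omega) hk₀⟩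
  obtain ⟨K, d₀, hP⟩ := hAG k hk
  obtain ⟨N₁, hN₁⟩ := J4H17.SP.poly_le (δ / 4) (by positivity) ((K + 1) * (2 * d₀) + 5)
  have hk0 : (0 : ℝ) < k := by exact_mod_cast hk
  refine ⟨δ / 4 / (18 * k), by positivity, fun d N₀ => ?_⟩
  obtain ⟨n, hn, hn1, hno⟩ := hS (d + (d₀ + 1)) (max N₀ (max N₁ ⌈4 / δ⌉₊))
  have hnN₁ : N₁ ≤ n := (le_max_left _ _).trans ((le_max_right _ _).trans hn)
  have hnδ : 4 / δ ≤ n := by
    have h1 : ⌈4 / δ⌉₊ ≤ n := (le_max_right _ _).trans ((le_max_right _ _).trans hn)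
    exact (Nat.le_ceil _).trans (by exact_mod_cast h1)
  have hnn : n ≤ n * (18 * k) := Nat.le_mul_of_pos_right _ (by omega)
  refine ⟨n * (18 * k), ((le_max_left _ _).trans hn).trans hnn, hn1.trans hnn, n * (8 * k), ?_⟩
  rintro ⟨C, hwf, hd, hsize, hacc⟩
  refine hno ?_
  have hw2 : 2 ≤ (2 * n) ^ (K + 1) := by
    calc 2 ≤ 2 * n := by omega
      _ = (2 * n) ^ 1 := (pow_one _).symm
      _ ≤ (2 * n) ^ (K + 1) := Nat.pow_le_pow_right (by omega) (by omega)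
  have hwK : (2 * n) ^ K ≤ (2 * n) ^ (K + 1) := Nat.pow_le_pow_right (by omega) (by omega)
  have hne : Nonempty (Cl n) := ⟨⟨∅, by simp⟩⟩
  obtain ⟨C', g1, g2, g3, g4⟩ := t_SUB (Cl n) (Pr (n * (18 * k))) ((2 * n) ^ (K + 1)) d d₀ C hw2 hwf
    hd (gr k hk) (fun p => by
      have h := J4H17.SP.AC.mono hwK (hP n hn1 ((eV n k).symm p.1.1) ((eV n k).symm p.1.2))
      have e : (fun x : Cl n → Bool => gr k hk x p = true) =
          fun x => R k hk x ((eV n k).symm p.1.1) ((eV n k).symm p.1.2) := by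
        funext x
        simp [gr]
      rw [e]
      exact h)
  refine ⟨C', g1, g2, ?_, fun x hx => ?_⟩
  · -- sizes
    set X : ℝ := (2 : ℝ) ^ (δ / 4 * (n : ℝ)) with hX
    have hX2 : 2 ≤ X := by
      have h1 : (1 : ℝ) ≤ δ / 4 * n := by
        rw [div_le_iff₀ hδ] at hnδ
        linarith
      calc (2 : ℝ) = (2 : ℝ) ^ (1 : ℝ) := (Real.rpow_one 2).symm
        _ ≤ X := Real.rpow_le_rpow_of_exponent_le (by norm_num) h1
    have hsize' : (Fintype.card (Pr (n * (18 * k))) : ℝ) + (C.m : ℝ) ≤ X := by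
      refine hsize.trans (le_of_eq ?_)
      rw [hX]
      congr 1
      push_cast
      field_simp
    have hW : ((((2 * n) ^ ((K + 1) * (2 * d₀) + 5)) : ℕ) : ℝ) ≤ X := by
      exact_mod_cast hN₁ n hnN₁
    have g3' : (C'.m : ℝ) ≤ (C.m : ℝ) + (Fintype.card (Pr (n * (18 * k))) : ℝ) *
        ((((2 * n) ^ ((K + 1) * (2 * d₀))) : ℕ) : ℝ) := by
      rw [← pow_mul] at g3
      exact_mod_cast g3
    have hcl : (Fintype.card (Cl n) : ℝ) ≤ (((2 * n) ^ 4 : ℕ) : ℝ) := by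
      exact_mod_cast card_Cl_le n hn1
    set W : ℝ := ((((2 * n) ^ ((K + 1) * (2 * d₀))) : ℕ) : ℝ) with hWd
    have hW1 : (1 : ℝ) ≤ W := by
      have : 1 ≤ (2 * n) ^ ((K + 1) * (2 * d₀)) := Nat.one_le_pow _ _ (by omega)
      rw [hWd]
      exact_mod_cast this
    set P : ℝ := (((2 * n) ^ 4 : ℕ) : ℝ) with hPd
    have hP1 : (1 : ℝ) ≤ P := by
      have : 1 ≤ (2 * n) ^ 4 := Nat.one_le_pow _ _ (by omega)
      rw [hPd]
      exact_mod_cast this
    have hW2 : 2 * (P * W) ≤ X := by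
      have h1 : 2 * ((2 * n) ^ 4 * (2 * n) ^ ((K + 1) * (2 * d₀))) ≤
          (2 * n) ^ ((K + 1) * (2 * d₀) + 5) := by
        calc 2 * ((2 * n) ^ 4 * (2 * n) ^ ((K + 1) * (2 * d₀)))
            ≤ (2 * n) * ((2 * n) ^ 4 * (2 * n) ^ ((K + 1) * (2 * d₀))) :=
              Nat.mul_le_mul_right _ (by omega)
          _ = (2 * n) ^ ((K + 1) * (2 * d₀) + 5) := by ring
      have h2 : ((2 * ((2 * n) ^ 4 * (2 * n) ^ ((K + 1) * (2 * d₀))) : ℕ) : ℝ) ≤
          (((2 * n) ^ ((K + 1) * (2 * d₀) + 5) : ℕ) : ℝ) := by exact_mod_cast h1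
      have h3 : ((2 * ((2 * n) ^ 4 * (2 * n) ^ ((K + 1) * (2 * d₀))) : ℕ) : ℝ) =
          2 * (P * W) := by
        rw [hWd, hPd]; push_cast; ring
      rw [← h3]
      exact h2.trans hW
    set L : ℝ := (Fintype.card (Pr (n * (18 * k))) : ℝ) with hL
    set M : ℝ := (C.m : ℝ) with hM
    have hM0 : 0 ≤ M := Nat.cast_nonneg _
    have hL0 : 0 ≤ L := Nat.cast_nonneg _
    have e1 : (2 : ℝ) ^ (δ * (n : ℝ)) = (X * X) * (X * X) := by
      rw [hX, ← Real.rpow_add (by norm_num), ← Real.rpow_add (by norm_num)]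
      congr 1
      ring
    rw [e1]
    have f1 : P ≤ X := by nlinarith
    have f2 : W ≤ X := by nlinarith
    have f3 : M + L * W ≤ X * X := by nlinarith
    have f5 : 4 ≤ X * X := by nlinarith
    have f6 : X ≤ X * X := by nlinarith
    have f4 : X + X * X ≤ (X * X) * (X * X) := by nlinarith
    linarith
  · rw [g4, hacc (gr k hk x) (deg3_gr hDG hk x hx), hasInd_gr]
    exact ⟨hEQ2 n k hk x hn1 hx, hEQ1 n k hk x hx⟩

end Pool.Agent.J4H63.IS
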