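import Pool.Agent.J4H63.IS.B5
import Pool.Agent.J4H57.IS.Eq1
import Pool.Agent.J4H57.IS.Eq2
import Pool.Agent.J4H94.IS.Dg
import Pool.Agent.J4H87.IS.Ag
import Pool.Agent.J4H12.IS.Bc1
import Pool.Agent.J4H98.IS.Bc2
import Pool.Agent.J4H8.IS.Ba
import Pool.Agent.J4H18.IS.Bn
import Pool.Agent.J4H18.IS.Or

set_option autoImplicit false

/-! Hypothesis H is equivalent to its forms for Independent Set. -/

namespace Pool.Agent.J4H63.IS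

open Pool.Agent.J4H64.SS Pool.Agent.J4H95.SP

theorem H_to_IS3 (h : HypH) : HypIS3 :=
  t_A5 Pool.Agent.J4H94.IS.t_DG Pool.Agent.J4H57.IS.t_EQ1 Pool.Agent.J4H57.IS.t_EQ2
    Pool.Agent.J4H87.IS.t_AG (H_iff_sparse.1 h)

theorem IS_to_H (h : HypIS) : HypH :=
  t_B5 Pool.Agent.J4H12.IS.t_BC1 Pool.Agent.J4H98.IS.t_BC2 Pool.Agent.J4H8.IS.t_BA
    Pool.Agent.J4H18.IS.t_BN Pool.Agent.J4H18.IS.t_OR h

theorem H_iff_IS3 : HypH ↔ HypIS3 := ⟨H_to_IS3, fun h => IS_to_H (IS3_to_IS h)⟩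

theorem H_iff_IS : HypH ↔ HypIS := ⟨fun h => IS3_to_IS (H_to_IS3 h), IS_to_H⟩

end Pool.Agent.J4H63.IS
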