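import Pool.Agent.J4H63.IS.A5

set_option autoImplicit false

namespace Pool.Agent.J4H63.IS

open Finset Pool.Agent.J4H64.SS Pool.Agent.J4H95.SP

theorem nv_le (n b : ℕ) (hn : 1 ≤ n) : nv n b ≤ (1 + 2 * (2 ^ b + 2 ^ b + 1)) * n := by
  unfold nv nb
  have h1 : n / b + 1 ≤ 2 * n := by
    have := Nat.div_le_self n b
    omega
  calc n + ((n / b + 1) * 2 ^ b + (n / b + 1) * (2 ^ b + 1))
      = n + (n / b + 1) * (2 ^ b + 2 ^ b + 1) := by ring
    _ ≤ n + (2 * n) * (2 ^ b + 2 ^ b + 1) := by gcongr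
    _ = _ := by ring

theorem le_nv (n b : ℕ) : n ≤ nv n b := by
  unfold nv; omega

theorem t_B5 : S_B5 := by
  classical
  intro hBC1 hBC2 hBA hBN hOR
  rintro ⟨δ, hδ, hS⟩
  obtain ⟨b, N₂, hb, hBN'⟩ := hBN (δ / 4) (by positivity)
  set q : ℕ := 1 + 2 * (2 ^ b + 2 ^ b + 1) with hq
  have hq1 : 1 ≤ q := by omega
  have hq0 : (0 : ℝ) < q := by exact_mod_cast hq1
  obtain ⟨N₁, hN₁⟩ := J4H17.SP.poly_le (δ / 8) (by positivity) (2 * (2 * 20) + 3)
  refine ⟨δ / 4 / q, by positivity, fun d N₀ => ?_⟩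
  obtain ⟨n, hn, hn1, κ, hno⟩ := hS (d + 20 + 2) (max (max N₀ 2) (max N₁ (max N₂ ⌈8 / δ⌉₊)))
  have hnN₀ : N₀ ≤ n := (le_max_left _ _).trans ((le_max_left _ _).trans hn)
  have hn2 : 2 ≤ n := (le_max_right _ _).trans ((le_max_left _ _).trans hn)
  have hnN₁ : N₁ ≤ n := (le_max_left _ _).trans ((le_max_right _ _).trans hn)
  have hnN₂ : N₂ ≤ n :=
    (le_max_left _ _).trans ((le_max_right _ _).trans ((le_max_right _ _).trans hn))
  have hnδ : 8 / δ ≤ n := by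
    have h1 : ⌈8 / δ⌉₊ ≤ n :=
      (le_max_right _ _).trans ((le_max_right _ _).trans ((le_max_right _ _).trans hn))
    exact (Nat.le_ceil _).trans (by exact_mod_cast h1)
  have hnv := le_nv n b
  refine ⟨nv n b, hnN₀.trans hnv, hn1.trans hnv, ?_⟩
  rintro ⟨D, hwf, hd, hsize, hacc⟩
  refine hno ?_
  set w : ℕ := (2 * n) ^ 2 with hw
  have hw2 : 2 ≤ w := by
    calc 2 ≤ 2 * n := by omega
      _ = (2 * n) ^ 1 := (pow_one _).symm
      _ ≤ w := Nat.pow_le_pow_right (by omega) (by omega)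
  have hPr : Fintype.card (Pr n) ≤ w := (card_Pr_le n).trans (Nat.pow_le_pow_left (by omega) 2)
  have hne : Nonempty (Pr n) :=
    ⟨⟨(⟨0, by omega⟩, ⟨1, by omega⟩), by simp [Fin.lt_def]⟩⟩
  have hne2 : Nonempty (Fin (nb n b) → Fin (b + 1)) := ⟨fun _ => 0⟩
  obtain ⟨C, g1, g2, g3, g4⟩ := hOR (Pr n) (Cl (nv n b)) (Fin (nb n b) → Fin (b + 1)) w d 20 D.m
    (fun _ => D) hw2 (fun _ => hwf) (fun _ => hd) (fun _ => le_rfl)
    (fun c x => bk n b κ c x) (fun c q => hBA n b κ w c q hw2 hPr)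
  refine ⟨C, g1, g2, ?_, fun x => ?_⟩
  · -- sizes
    set Y : ℝ := (2 : ℝ) ^ (δ / 8 * (n : ℝ)) with hY
    have hY2 : 2 ≤ Y := by
      have h1 : (1 : ℝ) ≤ δ / 8 * n := by
        rw [div_le_iff₀ hδ] at hnδ
        linarith
      calc (2 : ℝ) = (2 : ℝ) ^ (1 : ℝ) := (Real.rpow_one 2).symm
        _ ≤ Y := Real.rpow_le_rpow_of_exponent_le (by norm_num) h1
    have hY4 : (2 : ℝ) ^ (δ / 4 * (n : ℝ)) = Y * Y := by
      rw [hY, ← Real.rpow_add (by norm_num)]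
      congr 1
      ring
    have hβ : ((Fintype.card (Fin (nb n b) → Fin (b + 1)) : ℕ) : ℝ) ≤ Y * Y := by
      rw [← hY4, Fintype.card_fun, Fintype.card_fin, Fintype.card_fin]
      exact hBN' n hnN₂
    have hsize' : (Fintype.card (Cl (nv n b)) : ℝ) + (D.m : ℝ) ≤ Y * Y := by
      refine hsize.trans ?_
      rw [← hY4]
      apply Real.rpow_le_rpow_of_exponent_le (by norm_num)
      have h1 : ((nv n b : ℕ) : ℝ) ≤ q * n := by
        have := nv_le n b hn1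
        exact_mod_cast this
      calc δ / 4 / q * ((nv n b : ℕ) : ℝ) ≤ δ / 4 / q * (q * n) := by gcongr
        _ = δ / 4 * n := by field_simp
    have hW : ((((2 * n) ^ (2 * (2 * 20) + 3)) : ℕ) : ℝ) ≤ Y := by
      exact_mod_cast hN₁ n hnN₁
    set W : ℝ := (((2 * n) ^ (2 * (2 * 20)) : ℕ) : ℝ) with hWd
    have hwW : ((w ^ (2 * 20) : ℕ) : ℝ) = W := by
      rw [hWd, hw, ← pow_mul]
    have hW1 : (1 : ℝ) ≤ W := by
      have : 1 ≤ (2 * n) ^ (2 * (2 * 20)) := Nat.one_le_pow _ _ (by omega)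
      rw [hWd]
      exact_mod_cast this
    set P : ℝ := (((2 * n) ^ 2 : ℕ) : ℝ) with hPd
    have hP1 : (1 : ℝ) ≤ P := by
      have : 1 ≤ (2 * n) ^ 2 := Nat.one_le_pow _ _ (by omega)
      rw [hPd]
      exact_mod_cast this
    have hPW : 2 * (P * W) ≤ Y := by
      have h1 : 2 * ((2 * n) ^ 2 * (2 * n) ^ (2 * (2 * 20))) ≤ (2 * n) ^ (2 * (2 * 20) + 3) := by
        calc 2 * ((2 * n) ^ 2 * (2 * n) ^ (2 * (2 * 20)))
            ≤ (2 * n) * ((2 * n) ^ 2 * (2 * n) ^ (2 * (2 * 20))) :=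
              Nat.mul_le_mul_right _ (by omega)
          _ = (2 * n) ^ (2 * (2 * 20) + 3) := by ring
      have h2 : ((2 * ((2 * n) ^ 2 * (2 * n) ^ (2 * (2 * 20))) : ℕ) : ℝ) ≤
          (((2 * n) ^ (2 * (2 * 20) + 3) : ℕ) : ℝ) := by exact_mod_cast h1
      have h3 : ((2 * ((2 * n) ^ 2 * (2 * n) ^ (2 * (2 * 20))) : ℕ) : ℝ) = 2 * (P * W) := by
        rw [hWd, hPd]; push_cast; ring
      rw [← h3]
      exact h2.trans hW
    have hPc : (Fintype.card (Pr n) : ℝ) ≤ P := by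
      rw [hPd]
      exact_mod_cast hPr
    have g3' : (C.m : ℝ) ≤ 1 + (Fintype.card (Fin (nb n b) → Fin (b + 1)) : ℝ) *
        ((D.m : ℝ) + (Fintype.card (Cl (nv n b)) : ℝ) * W) := by
      rw [← hwW]
      exact_mod_cast g3
    set L : ℝ := (Fintype.card (Cl (nv n b)) : ℝ) with hL
    set M : ℝ := (D.m : ℝ) with hM
    have hM0 : 0 ≤ M := Nat.cast_nonneg _
    have hL0 : 0 ≤ L := Nat.cast_nonneg _
    have e1 : (2 : ℝ) ^ (δ * (n : ℝ)) = ((Y * Y) * (Y * Y)) * ((Y * Y) * (Y * Y)) := by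
      rw [hY, ← Real.rpow_add (by norm_num), ← Real.rpow_add (by norm_num),
        ← Real.rpow_add (by norm_num)]
      congr 1
      ring
    rw [e1]
    have f2 : W ≤ Y := by nlinarith
    have f1 : P ≤ Y := by nlinarith
    have hY0 : (0 : ℝ) < Y := by linarith
    have f3 : M + L * W ≤ (Y * Y) * Y := by
      have : M + L * W ≤ (L + M) * W := by nlinarith
      calc M + L * W ≤ (L + M) * W := this
        _ ≤ (Y * Y) * Y := mul_le_mul hsize' f2 (by linarith) (by positivity)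
    have f4 : (Fintype.card (Fin (nb n b) → Fin (b + 1)) : ℝ) * (M + L * W) ≤
        (Y * Y) * ((Y * Y) * Y) :=
      mul_le_mul hβ f3 (by nlinarith) (by positivity)
    have f5 : 4 ≤ Y * Y := by nlinarith
    set Z : ℝ := Y * Y with hZ
    have f6 : Y ≤ Z := by nlinarith
    have f7 : P + (1 + Z * (Z * Y)) ≤ (Z * Z) * (Z * Z) := by
      have k1 : Z * Y ≤ Z * Z := by nlinarith
      have k2 : Z * (Z * Y) ≤ Z * (Z * Z) := by nlinarith
      have k3 : 16 ≤ Z * Z := by nlinarith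
      have k4 : Z * (Z * Z) * 4 ≤ (Z * Z) * (Z * Z) := by nlinarith [mul_pos (show (0:ℝ) < Z by linarith) (show (0:ℝ) < Z * Z by nlinarith)]
      have k5 : P ≤ Z := f1.trans f6
      have k6 : Z ≤ Z * (Z * Z) := by nlinarith
      nlinarith
    linarith
  · rw [g4]
    constructor
    · rintro ⟨c, hc⟩
      exact hBC2 n b κ hb x c ((hacc _).1 hc)
    · intro h
      obtain ⟨c, hc⟩ := hBC1 n b κ hb x h
      exact ⟨c, (hacc _).2 hc⟩

/-- the trivial direction -/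
theorem IS3_to_IS : HypIS3 → HypIS := by
  rintro ⟨δ, hδ, h⟩
  refine ⟨δ, hδ, fun d N₀ => ?_⟩
  obtain ⟨n, h1, h2, κ, h3⟩ := h d N₀
  exact ⟨n, h1, h2, κ, fun ⟨C, g1, g2, g3, g4⟩ => h3 ⟨C, g1, g2, g3, fun x _ => g4 x⟩⟩

end Pool.Agent.J4H63.IS
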