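import Pool.Agent.J4H95.SP.Def2

set_option autoImplicit false

/-! # Project IS (helper63): Independent Set and Hypothesis H. Exact statements. -/

namespace Pool.Agent.J4H63.IS

open Finset Pool.Agent.J4H64.SS Pool.Agent.J4H95.SP

/-! ## Graphs and the hypotheses -/

/-- the pairs of different vertices -/
abbrev Pr (n : ℕ) : Type := {p : Fin n × Fin n // p.1 < p.2}

/-- adjacency in the graph with the adjacency bits `x` -/
def Adj {n : ℕ} (x : Pr n → Bool) (u v : Fin n) : Prop :=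
  (∃ h : u < v, x ⟨(u, v), h⟩ = true) ∨ ∃ h : v < u, x ⟨(v, u), h⟩ = true

/-- the graph has an independent set with at least `κ` vertices -/
def HasInd {n : ℕ} (κ : ℕ) (x : Pr n → Bool) : Prop :=
  ∃ S : Finset (Fin n), κ ≤ S.card ∧ ∀ u ∈ S, ∀ v ∈ S, ¬ Adj x u v

/-- every vertex has at most three neighbours -/
def Deg3 {n : ℕ} (x : Pr n → Bool) : Prop :=
  ∀ (u : Fin n) (S : Finset (Fin n)), (∀ v ∈ S, Adj x u v) → S.card ≤ 3

/-- Hypothesis H for Independent Set on graphs of maximum degree three -/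
def HypIS3 : Prop :=
  ∃ δ : ℝ, 0 < δ ∧ ∀ d N₀ : ℕ, ∃ n : ℕ, N₀ ≤ n ∧ 1 ≤ n ∧ ∃ κ : ℕ,
    ¬ ∃ C : Circ (Pr n), C.WF ∧ C.Depth d ∧
      ((Fintype.card (Pr n) : ℝ) + (C.m : ℝ) ≤ (2 : ℝ) ^ (δ * (n : ℝ))) ∧
      ∀ x : Pr n → Bool, Deg3 x → (C.Acc x ↔ HasInd κ x)

/-- Hypothesis H for Independent Set -/
def HypIS : Prop :=
  ∃ δ : ℝ, 0 < δ ∧ ∀ d N₀ : ℕ, ∃ n : ℕ, N₀ ≤ n ∧ 1 ≤ n ∧ ∃ κ : ℕ,
    ¬ ∃ C : Circ (Pr n), C.WF ∧ C.Depth d ∧
      ((Fintype.card (Pr n) : ℝ) + (C.m : ℝ) ≤ (2 : ℝ) ^ (δ * (n : ℝ))) ∧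
      ∀ x : Pr n → Bool, C.Acc x ↔ HasInd κ x

/-! ## From sparse 3-CNFs to graphs of maximum degree three -/

/-- vertices: for each variable a cycle with `12 k` vertices; for each literal and `s < k` a
triangle -/
abbrev Vt (n k : ℕ) : Type := (Fin n × Fin (6 * k) × Bool) ⊕ ((Fin n × Bool) × Fin k × Fin 3)

/-- next index on the cycle -/
def nx {k : ℕ} (i : Fin (6 * k)) : Fin (6 * k) :=
  ⟨(i.1 + 1) % (6 * k), Nat.mod_lt _ (by have := i.2; omega)⟩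

/-- index on the cycle of the `j`-th occurrence of the literal of sign `b`, if it is at position
`p` of its clause -/
def ix (k : ℕ) (hk : 1 ≤ k) (j : ℕ) (p : Fin 3) (b : Bool) : Fin (6 * k) :=
  ⟨6 * min j (k - 1) + 2 * p.1 + (if b then 1 else 0), by
    have := p.2; split_ifs <;> omega⟩

theorem ex_el {n : ℕ} (c : Cl n) (h : c.1.Nonempty) :
    ∃ f : Fin 3 → Fin n × Bool, ∀ l, l ∈ c.1 ↔ ∃ p, f p = l := by
  obtain ⟨l₀, hl₀⟩ := h
  have e := c.1.equivFin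
  refine ⟨fun p => if h : p.1 < c.1.card then (e.symm ⟨p.1, h⟩).1 else l₀, fun l => ?_⟩
  constructor
  · intro hl
    have h2 := (e ⟨l, hl⟩).2
    refine ⟨⟨(e ⟨l, hl⟩).1, h2.trans_le c.2⟩, ?_⟩
    simp
  · rintro ⟨p, rfl⟩
    dsimp only
    split_ifs with h
    · exact (e.symm ⟨p.1, h⟩).2
    · exact hl₀

/-- the literals of a nonempty clause, with repetitions -/
noncomputable def el {n : ℕ} (c : Cl n) (h : c.1.Nonempty) : Fin 3 → Fin n × Bool :=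
  Classical.choose (ex_el c h)

theorem el_spec {n : ℕ} (c : Cl n) (h : c.1.Nonempty) (l : Fin n × Bool) :
    l ∈ c.1 ↔ ∃ p, el c h p = l := Classical.choose_spec (ex_el c h) l

/-- the triangle vertex `(l, s, p)` is joined to the cycle vertex `(v, i, b)`: the `s`-th clause at
`l` has `l` as its first literal, its `p`-th literal is `(v, !b)`, at the index `i` -/
def Jn {n : ℕ} (k : ℕ) (hk : 1 ≤ k) (x : Cl n → Bool) (l : Fin n × Bool) (s : Fin k) (p : Fin 3)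
    (v : Fin n) (i : Fin (6 * k)) (b : Bool) : Prop :=
  ∃ (c : Cl n) (h : c.1.Nonempty), x c = true ∧ el c h 0 = l ∧ rk x l c = s.1 ∧
    el c h p = (v, !b) ∧ i = ix k hk (rk x (v, !b) c) p (!b)

/-- adjacency; if `x` contains the empty clause, the cycles are replaced by complete graphs with
four vertices, and only the triangles are kept. -/
def R {n : ℕ} (k : ℕ) (hk : 1 ≤ k) (x : Cl n → Bool) : Vt n k → Vt n k → Prop
  | Sum.inl (v, i, b), Sum.inl (v', i', b') => v = v' ∧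
      ((x ⟨∅, by simp⟩ = true ∧ i.1 / 2 = i'.1 / 2 ∧ (i, b) ≠ (i', b')) ∨
       (x ⟨∅, by simp⟩ = false ∧ ((i = i' ∧ b ≠ b') ∨ (b = false ∧ b' = true ∧ i' = nx i) ∨
          (b' = false ∧ b = true ∧ i = nx i'))))
  | Sum.inr (l, s, p), Sum.inr (l', s', p') => l = l' ∧ s = s' ∧ p ≠ p'
  | Sum.inl (v, i, b), Sum.inr (l, s, p) => x ⟨∅, by simp⟩ = false ∧ Jn k hk x l s p v i b
  | Sum.inr (l, s, p), Sum.inl (v, i, b) => x ⟨∅, by simp⟩ = false ∧ Jn k hk x l s p v i b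

/-- (DG) maximum degree three -/
def S_DG : Prop := ∀ (n k : ℕ) (hk : 1 ≤ k) (x : Cl n → Bool), Sparse k x →
  ∀ (u : Vt n k) (S : Finset (Vt n k)), (∀ v ∈ S, R k hk x u v) → S.card ≤ 3

/-- (EQ1) from an assignment to an independent set -/
def S_EQ1 : Prop := ∀ (n k : ℕ) (hk : 1 ≤ k) (x : Cl n → Bool), Sparse k x → Sat x →
  ∃ S : Finset (Vt n k), n * (8 * k) ≤ S.card ∧ ∀ u ∈ S, ∀ v ∈ S, ¬ R k hk x u v

/-- (EQ2) from an independent set to an assignment -/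
def S_EQ2 : Prop := ∀ (n k : ℕ) (hk : 1 ≤ k) (x : Cl n → Bool), 1 ≤ n → Sparse k x →
  (∃ S : Finset (Vt n k), n * (8 * k) ≤ S.card ∧ ∀ u ∈ S, ∀ v ∈ S, ¬ R k hk x u v) → Sat x

/-- (AG) the adjacency is computed by constant-depth trees -/
def S_AG : Prop := ∀ (k : ℕ) (hk : 1 ≤ k), ∃ K d₀ : ℕ, ∀ (n : ℕ), 1 ≤ n → ∀ u v : Vt n k,
  AC ((2 * n) ^ K) d₀ (fun x : Cl n → Bool => R k hk x u v)

/-- (A5) assembly -/
def S_A5 : Prop := S_DG → S_EQ1 → S_EQ2 → S_AG → (∃ δ : ℝ, 0 < δ ∧ ∃ k : ℕ, SparseHyp δ k) → HypIS3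

/-! ## From Independent Set to 3-CNF-SAT -/

/-- the number of blocks -/
def nb (n b : ℕ) : ℕ := n / b + 1

/-- the variables: vertices; `(i, t)`: the chosen vertices of the block `i` contain the `t`-th set;
chain variables -/
abbrev Bv (n b : ℕ) : Type :=
  Fin n ⊕ ((Fin (nb n b) × Fin (2 ^ b)) ⊕ (Fin (nb n b) × Fin (2 ^ b + 1)))

/-- the number of variables -/
def nv (n b : ℕ) : ℕ := n + (nb n b * 2 ^ b + nb n b * (2 ^ b + 1))

/-- numbering of the variables -/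
noncomputable def ev (n b : ℕ) : Bv n b ≃ Fin (nv n b) :=
  Fintype.equivFinOfCardEq (by simp [nv])

/-- the subset of `Fin b` with the number `t` -/
noncomputable def sb (b : ℕ) (t : Fin (2 ^ b)) : Finset (Fin b) :=
  (Fintype.equivFinOfCardEq (by simp) : Finset (Fin b) ≃ Fin (2 ^ b)).symm t

section

variable (n b κ : ℕ)

/-- the literals -/
noncomputable def lx (v : Fin n) (s : Bool) : Fin (nv n b) × Bool := (ev n b (Sum.inl v), s)
noncomputable def ly (i : Fin (nb n b)) (t : Fin (2 ^ b)) (s : Bool) : Fin (nv n b) × Bool :=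
  (ev n b (Sum.inr (Sum.inl (i, t))), s)
noncomputable def lw (i : Fin (nb n b)) (t : Fin (2 ^ b + 1)) (s : Bool) :
    Fin (nv n b) × Bool := (ev n b (Sum.inr (Sum.inr (i, t))), s)

/-- the clauses of the formula for the graph `x` with the advice `c` -/
def Bk (c : Fin (nb n b) → Fin (b + 1)) (x : Pr n → Bool) (q : Finset (Fin (nv n b) × Bool)) :
    Prop :=
  (q = ∅ ∧ ∑ i, (c i).1 < κ) ∨
  (∃ p : Pr n, x p = true ∧ q = {lx n b p.1.1 false, lx n b p.1.2 false}) ∨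
  (∃ i t, ∃ j ∈ sb b t, ∃ h : i.1 * b + j.1 < n, q = {ly n b i t false, lx n b ⟨_, h⟩ true}) ∨
  (∃ i t, (∃ j ∈ sb b t, ¬ i.1 * b + j.1 < n) ∧ q = {ly n b i t false}) ∨
  (∃ i t, (sb b t).card < (c i).1 ∧ q = {ly n b i t false}) ∨
  (∃ i, q = {lw n b i 0 true}) ∨
  (∃ i t, q = {lw n b i (Fin.castSucc t) false, ly n b i t true, lw n b i t.succ true}) ∨
  (∃ i, q = {lw n b i (Fin.last _) false})

open Classical in
/-- its indicator vector -/
noncomputable def bk (c : Fin (nb n b) → Fin (b + 1)) (x : Pr n → Bool) : Cl (nv n b) → Bool :=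
  fun q => decide (Bk n b κ c x q.1)

end

/-- (BC1) -/
def S_BC1 : Prop := ∀ (n b κ : ℕ), 1 ≤ b → ∀ x : Pr n → Bool, HasInd κ x →
  ∃ c : Fin (nb n b) → Fin (b + 1), Sat (bk n b κ c x)

/-- (BC2) -/
def S_BC2 : Prop := ∀ (n b κ : ℕ), 1 ≤ b → ∀ x : Pr n → Bool,
  ∀ c : Fin (nb n b) → Fin (b + 1), Sat (bk n b κ c x) → HasInd κ x

/-- (BA) every bit is computed by a tree of constant depth -/
def S_BA : Prop := ∀ (n b κ w : ℕ) (c : Fin (nb n b) → Fin (b + 1)) (q : Cl (nv n b)),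
  2 ≤ w → Fintype.card (Pr n) ≤ w → AC w 20 (fun x : Pr n → Bool => bk n b κ c x q = true)

/-- (BN) the number of advices -/
def S_BN : Prop := ∀ η : ℝ, 0 < η → ∃ b N₁ : ℕ, 1 ≤ b ∧ ∀ n : ℕ, N₁ ≤ n →
  (((b + 1) ^ (nb n b) : ℕ) : ℝ) ≤ (2 : ℝ) ^ (η * (n : ℝ))

/-- (OR) substitution and disjunction over the branches, any types of inputs -/
def S_OR : Prop :=
  ∀ (I J β : Type) [Fintype I] [Nonempty I] [Fintype J] [Fintype β] [Nonempty β] (w d d₀ s : ℕ)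
    (D : β → Circ J), 2 ≤ w → (∀ t, (D t).WF) → (∀ t, (D t).Depth d) → (∀ t, (D t).m ≤ s) →
    ∀ F : β → (I → Bool) → J → Bool, (∀ t j, AC w d₀ (fun x => F t x j = true)) →
    ∃ C : Circ I, C.WF ∧ C.Depth (d + d₀ + 2) ∧
      C.m ≤ 1 + Fintype.card β * (s + Fintype.card J * w ^ (2 * d₀)) ∧
      ∀ x, C.Acc x ↔ ∃ t, (D t).Acc (F t x)

/-- (B5) assembly -/
def S_B5 : Prop := S_BC1 → S_BC2 → S_BA → S_BN → S_OR → HypIS → HypH

end Pool.Agent.J4H63.IS
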